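import Pool.Agent.H79.Asym

/-!
The second order asymptotics of the minimal integral of the sum of the squared Lagrange basis
polynomials.
-/

open Finset Filter

namespace Pool.Agent.Results.MP_93ab53_an.Asymptotics

/-- The `k`-th Lagrange basis polynomial for the nodes `x`. -/
noncomputable def lagrange {n : ℕ} (x : Fin n → ℝ) (k : Fin n) (t : ℝ) : ℝ :=
  ∏ i ∈ univ.erase k, (t - x i) / (x k - x i)

/-- `I(x_1, ..., x_n)`. -/
noncomputable def I {n : ℕ} (x : Fin n → ℝ) : ℝ :=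
  ∫ t in (-1 : ℝ)..1, ∑ k, lagrange x k t ^ 2

/-- `M(n)`, the infimum of `I` over all choices of `n` distinct nodes in `[-1, 1]`. -/
noncomputable def M (n : ℕ) : ℝ :=
  sInf {v : ℝ | ∃ x : Fin n → ℝ, Function.Injective x ∧ (∀ k, x k ∈ Set.Icc (-1 : ℝ) 1) ∧
    v = I x}

theorem result : Tendsto (fun n : ℕ => (n : ℝ) * (2 - M n)) atTop
    (nhds (Real.Gamma (1 / 4) ^ 4 / (16 * Real.pi ^ 2))) :=
  Pool.Agent.H79.asymptotics

end Pool.Agent.Results.MP_93ab53_an.Asymptotics
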